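import Pool.Agent.H85.LK.Targets

/-!
# AP: admissible constants are nonnegative
-/

set_option autoImplicit false

open MeasureTheory Metric Set ProbabilityTheory
open scoped ENNReal

namespace Pool.Agent.H18.LK

open Pool.Agent.H85.LK

theorem pf_AP : T_AP := by
  intro N n Ω c hn hc
  obtain ⟨V, hV, hall⟩ := hc
  have hne : V ≠ ⊥ := by
    rintro rfl
    rw [finrank_bot] at hV
    omega
  obtain ⟨v, hvV, hv0⟩ := Submodule.exists_mem_ne_zero_of_ne_bot hne
  obtain ⟨hsm, hcs, -, hineq⟩ := hall v hvV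
  obtain ⟨x, hx⟩ : ∃ x, v x ≠ 0 := by
    by_contra hcon
    push Not at hcon
    exact hv0 (funext hcon)
  have hcont : Continuous (fun y => v y ^ 2) := hsm.continuous.pow 2
  have hcomp : HasCompactSupport (fun y => v y ^ 2) :=
    hcs.comp_left (g := fun t : ℝ => t ^ 2) (by norm_num)
  have hpos : 0 < ∫ y, v y ^ 2 := by
    refine hcont.integral_pos_of_hasCompactSupport_nonneg_nonzero (x := x) hcomp ?_ ?_
    · intro y
      exact sq_nonneg _
    · exact pow_ne_zero 2 hx
  have hnn : 0 ≤ ∫ y, ‖fderiv ℝ v y‖ ^ 2 := integral_nonneg fun y => sq_nonneg _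
  by_contra hcneg
  push Not at hcneg
  have := mul_neg_of_neg_of_pos hcneg hpos
  linarith

end Pool.Agent.H18.LK
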