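import Pool.Agent.H85.LK.Targets

/-!
# BUA: selection of a radial profile
-/

set_option autoImplicit false

open MeasureTheory Metric Set ProbabilityTheory
open scoped ENNReal

namespace Pool.Agent.H18.LK

open Pool.Agent.H85.LK

/-- the selection argument -/
private theorem select {α : Type*} [MeasurableSpace α] (μ : Measure α) (m e : α → ℝ≥0∞)
    (he : Measurable e) (hm : Measurable m) (k : ℝ≥0∞) (hm0 : ∫⁻ x, m x ∂μ ≠ 0)
    (hkm : k * ∫⁻ x, m x ∂μ ≠ ∞) (hle : ∫⁻ x, e x ∂μ ≤ k * ∫⁻ x, m x ∂μ) :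
    ∃ x, m x ≠ 0 ∧ e x ≤ k * m x := by
  by_contra hcon
  push Not at hcon
  have h1 : (fun x => k * m x) ≤ᵐ[μ] e := by
    refine Filter.Eventually.of_forall fun x => ?_
    by_cases hx : m x = 0
    · simp [hx]
    · exact (hcon x hx).le
  have h2 : ∫⁻ x, k * m x ∂μ = k * ∫⁻ x, m x ∂μ := lintegral_const_mul k hm
  have h3 := ae_eq_of_ae_le_of_lintegral_le h1 (by rw [h2]; exact hkm) he.aemeasurable
    (by rw [h2]; exact hle)
  apply hm0
  rw [lintegral_eq_zero_iff hm]
  filter_upwards [h3] with x hx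
  by_contra hne
  exact absurd hx (hcon x hne).ne

theorem pf_BUA (hPLR : T_PLR) : T_BUA := by
  intro N w K hN hsm hcs hsub hw0 hineq
  -- basic facts
  have hcontw : Continuous w := hsm.continuous
  have hcontf : Continuous (fderiv ℝ w) := hsm.continuous_fderiv (by simp)
  obtain ⟨x0, hx0⟩ : ∃ x, w x ≠ 0 := by
    by_contra hcon
    push Not at hcon
    exact hw0 (funext hcon)
  have hcont2 : Continuous (fun y => w y ^ 2) := hcontw.pow 2
  have hcomp2 : HasCompactSupport (fun y => w y ^ 2) :=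
    hcs.comp_left (g := fun t : ℝ => t ^ 2) (by norm_num)
  have hint2 : Integrable (fun y => w y ^ 2) := hcont2.integrable_of_hasCompactSupport hcomp2
  have hpos : 0 < ∫ y, w y ^ 2 :=
    hcont2.integral_pos_of_hasCompactSupport_nonneg_nonzero (x := x0) hcomp2
      (fun y => sq_nonneg _) (pow_ne_zero 2 hx0)
  have hcontd : Continuous (fun y => ‖fderiv ℝ w y‖ ^ 2) := hcontf.norm.pow 2
  have hcompd : HasCompactSupport (fun y => ‖fderiv ℝ w y‖ ^ 2) :=
    (hcs.fderiv (𝕜 := ℝ)).comp_left (g := fun t : E N →L[ℝ] ℝ => ‖t‖ ^ 2) (by norm_num)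
  have hintd : Integrable (fun y => ‖fderiv ℝ w y‖ ^ 2) :=
    hcontd.integrable_of_hasCompactSupport hcompd
  have hK : 0 ≤ K := by
    have h0 : 0 ≤ ∫ y, ‖fderiv ℝ w y‖ ^ 2 := integral_nonneg fun y => sq_nonneg _
    by_contra hcon
    push Not at hcon
    have := mul_neg_of_neg_of_pos hcon hpos
    linarith
  -- polar coordinates
  have hp1 := hPLR N hN (fun x => ENNReal.ofReal (w x ^ 2))
    (hcont2.measurable.ennreal_ofReal)
  have hp2 := hPLR N hN (fun x => ENNReal.ofReal (‖fderiv ℝ w x‖ ^ 2))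
    (hcontd.measurable.ennreal_ofReal)
  set m : sphere (0 : E N) 1 → ℝ≥0∞ := fun θ => ∫⁻ t in Ioi (0 : ℝ),
    ENNReal.ofReal (t ^ (N - 1)) * ENNReal.ofReal (w (t • (θ : E N)) ^ 2) with hm
  set e : sphere (0 : E N) 1 → ℝ≥0∞ := fun θ => ∫⁻ t in Ioi (0 : ℝ),
    ENNReal.ofReal (t ^ (N - 1)) * ENNReal.ofReal (‖fderiv ℝ w (t • (θ : E N))‖ ^ 2) with he
  have hmeas : ∀ f : E N → ℝ, Continuous f → Measurable fun θ : sphere (0 : E N) 1 =>
      ∫⁻ t in Ioi (0 : ℝ), ENNReal.ofReal (t ^ (N - 1)) *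
        ENNReal.ofReal (f (t • (θ : E N))) := by
    intro f hf
    have hc : Continuous (fun p : sphere (0 : E N) 1 × ℝ => f (p.2 • (p.1 : E N))) :=
      hf.comp (continuous_snd.smul (continuous_subtype_val.comp continuous_fst))
    have hc2 : Continuous (fun p : sphere (0 : E N) 1 × ℝ => p.2 ^ (N - 1)) :=
      continuous_snd.pow _
    have hmm : Measurable (fun p : sphere (0 : E N) 1 × ℝ =>
        ENNReal.ofReal (p.2 ^ (N - 1)) * ENNReal.ofReal (f (p.2 • (p.1 : E N)))) :=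
      hc2.measurable.ennreal_ofReal.mul hc.measurable.ennreal_ofReal
    exact hmm.lintegral_prod_right'
  have hmm : Measurable m := hmeas (fun x => w x ^ 2) hcont2
  have hme : Measurable e := hmeas (fun x => ‖fderiv ℝ w x‖ ^ 2) hcontd
  have hI1 : ∫⁻ θ, m θ ∂((volume : Measure (E N)).toSphere) =
      ENNReal.ofReal (∫ x, w x ^ 2) := by
    rw [ofReal_integral_eq_lintegral_ofReal hint2
      (Filter.Eventually.of_forall fun x => sq_nonneg _)]
    exact hp1.symm
  have hI2 : ∫⁻ θ, e θ ∂((volume : Measure (E N)).toSphere) =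
      ENNReal.ofReal (∫ x, ‖fderiv ℝ w x‖ ^ 2) := by
    rw [ofReal_integral_eq_lintegral_ofReal hintd
      (Filter.Eventually.of_forall fun x => sq_nonneg _)]
    exact hp2.symm
  obtain ⟨θ, hθ1, hθ2⟩ := select ((volume : Measure (E N)).toSphere) m e hme hmm
    (ENNReal.ofReal K) (by
      rw [hI1]
      exact (ENNReal.ofReal_pos.2 hpos).ne')
    (by
      rw [hI1]
      exact ENNReal.mul_ne_top ENNReal.ofReal_ne_top ENNReal.ofReal_ne_top)
    (by
      rw [hI1, hI2, ← ENNReal.ofReal_mul hK]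
      exact ENNReal.ofReal_le_ofReal hineq)
  have hθn : ‖(θ : E N)‖ = 1 := by
    have := θ.2
    rwa [mem_sphere_zero_iff_norm] at this
  -- the profile
  set g : ℝ → ℝ := fun t => w (t • (θ : E N)) with hg
  have hline : ContDiff ℝ (⊤ : ℕ∞) (fun t : ℝ => t • (θ : E N)) :=
    contDiff_id.smul contDiff_const
  have hgsm : ContDiff ℝ (⊤ : ℕ∞) g := hsm.comp hline
  have hgd : ∀ t, HasDerivAt g (fderiv ℝ w (t • (θ : E N)) (θ : E N)) t := by
    intro t
    have h1 : HasDerivAt (fun t : ℝ => t • (θ : E N)) (θ : E N) t := by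
      simpa using (hasDerivAt_id t).smul_const (θ : E N)
    have h2 : HasFDerivAt w (fderiv ℝ w (t • (θ : E N))) (t • (θ : E N)) :=
      (hsm.differentiable (by simp) _).hasFDerivAt
    exact h2.comp_hasDerivAt t h1
  have hgb : ∀ t, deriv g t ^ 2 ≤ ‖fderiv ℝ w (t • (θ : E N))‖ ^ 2 := by
    intro t
    rw [(hgd t).deriv]
    have h1 : |fderiv ℝ w (t • (θ : E N)) (θ : E N)| ≤ ‖fderiv ℝ w (t • (θ : E N))‖ := by
      have := (fderiv ℝ w (t • (θ : E N))).le_opNorm (θ : E N)
      rwa [hθn, mul_one, Real.norm_eq_abs] at this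
    rw [← sq_abs]
    exact pow_le_pow_left₀ (abs_nonneg _) h1 2
  obtain ⟨r, hr1, hr2⟩ := exists_lt_subset_ball (isClosed_tsupport w) hsub
  have hgz : ∀ t : ℝ, r ≤ |t| → g t = 0 := by
    intro t ht
    by_contra hne
    have h1 : t • (θ : E N) ∈ tsupport w := subset_tsupport w hne
    have h2 := hr2 h1
    rw [mem_ball_zero_iff, norm_smul, hθn, mul_one, Real.norm_eq_abs] at h2
    linarith
  have hgcs : HasCompactSupport g := by
    refine HasCompactSupport.intro (isCompact_Icc (a := -r) (b := r)) fun t ht => hgz t ?_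
    by_contra hcon
    push Not at hcon
    apply ht
    rw [abs_lt] at hcon
    exact ⟨hcon.1.le, hcon.2.le⟩
  have hgcont : Continuous g := hgsm.continuous
  have hgdcont : Continuous (deriv g) := hgsm.continuous_deriv (by simp)
  have hgdcs : HasCompactSupport (deriv g) := hgcs.deriv
  have hi1 : Integrable (fun t => g t ^ 2 * t ^ (N - 1)) := by
    refine Continuous.integrable_of_hasCompactSupport
      ((hgcont.pow 2).mul (continuous_id.pow (N - 1))) ?_
    exact (hgcs.comp_left (g := fun t : ℝ => t ^ 2) (by norm_num)).mul_right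
  have hi2 : Integrable (fun t => deriv g t ^ 2 * t ^ (N - 1)) := by
    refine Continuous.integrable_of_hasCompactSupport
      ((hgdcont.pow 2).mul (continuous_id.pow (N - 1))) ?_
    exact (hgdcs.comp_left (g := fun t : ℝ => t ^ 2) (by norm_num)).mul_right
  have hi1' := hi1.integrableOn (s := Ioi (0 : ℝ))
  have hi2' := hi2.integrableOn (s := Ioi (0 : ℝ))
  have hnn1 : 0 ≤ᵐ[volume.restrict (Ioi (0 : ℝ))] fun t => g t ^ 2 * t ^ (N - 1) := by
    filter_upwards [ae_restrict_mem measurableSet_Ioi] with t ht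
    have : (0 : ℝ) ≤ t := le_of_lt ht
    positivity
  have hnn2 : 0 ≤ᵐ[volume.restrict (Ioi (0 : ℝ))] fun t => deriv g t ^ 2 * t ^ (N - 1) := by
    filter_upwards [ae_restrict_mem measurableSet_Ioi] with t ht
    have : (0 : ℝ) ≤ t := le_of_lt ht
    positivity
  have hM : ENNReal.ofReal (∫ t in Ioi (0 : ℝ), g t ^ 2 * t ^ (N - 1)) = m θ := by
    rw [ofReal_integral_eq_lintegral_ofReal hi1' hnn1, hm]
    refine setLIntegral_congr_fun measurableSet_Ioi fun t ht => ?_
    have h0 : (0 : ℝ) ≤ t := le_of_lt ht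
    rw [mul_comm, ENNReal.ofReal_mul (pow_nonneg h0 _)]
  have hE : ENNReal.ofReal (∫ t in Ioi (0 : ℝ), deriv g t ^ 2 * t ^ (N - 1)) ≤ e θ := by
    rw [ofReal_integral_eq_lintegral_ofReal hi2' hnn2, he]
    refine setLIntegral_mono' measurableSet_Ioi fun t ht => ?_
    have h0 : (0 : ℝ) ≤ t := le_of_lt ht
    rw [mul_comm, ENNReal.ofReal_mul (pow_nonneg h0 _)]
    exact mul_le_mul' le_rfl (ENNReal.ofReal_le_ofReal (hgb t))
  refine ⟨g, hgsm, ⟨min (1 - r) (1 / 2), ?_, ?_, ?_⟩, ?_, ?_⟩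
  · exact lt_min (by linarith) (by norm_num)
  · exact lt_of_le_of_lt (min_le_right _ _) (by norm_num)
  · intro t ht
    apply hgz
    have h1 := min_le_left (1 - r) (1 / 2 : ℝ)
    exact le_trans (by linarith) (le_abs_self t)
  · rw [← ENNReal.ofReal_pos, hM]
    exact pos_iff_ne_zero.2 hθ1
  · have h0 : 0 ≤ ∫ t in Ioi (0 : ℝ), g t ^ 2 * t ^ (N - 1) := integral_nonneg_of_ae hnn1
    rw [← ENNReal.ofReal_le_ofReal_iff (mul_nonneg hK h0), ENNReal.ofReal_mul hK, hM]
    exact hE.trans hθ2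

end Pool.Agent.H18.LK
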